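import Pool.Agent.N240.HK.Stm
import Pool.Agent.H803R2.KakFTO

set_option autoImplicit false

/-!
# HK/SHADE: part of a tube in a set
-/

open MeasureTheory Set Metric Filter Topology

namespace Pool.Agent.N482.HK

open Pool.Agent.N240.HK

theorem main : S_shade := by
  intro d
  have hc0 : 0 < volume (closedBall (0 : Vec d) (1 / 4)) :=
    measure_closedBall_pos _ _ (by norm_num)
  have hct : volume (closedBall (0 : Vec d) (1 / 4)) < ⊤ := measure_closedBall_lt_top
  refine ⟨(volume (closedBall (0 : Vec d) (1 / 4))).toReal, ENNReal.toReal_pos hc0.ne' hct.ne, ?_⟩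
  intro δ hδ hδ1 v b s hv A X hA hAs hX
  have hmp := WithLp.volume_preserving_toLp (Vec d) ℝ
  have hme : MeasurableEmbedding (WithLp.toLp 2 : (Vec d) × ℝ → Space d) :=
    (MeasurableEquiv.toLp 2 ((Vec d) × ℝ)).measurableEmbedding
  rw [← hmp.measure_preimage_emb hme]
  have hball : volume (closedBall (0 : Vec d) (δ / 4)) =
      ENNReal.ofReal ((volume (closedBall (0 : Vec d) (1 / 4))).toReal * δ ^ d) := by
    have h1 : δ / 4 = δ * (1 / 4) := by ring
    rw [h1, Measure.addHaar_closedBall_mul _ _ hδ.le (by norm_num : (0:ℝ) ≤ 1 / 4),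
      finrank_euclideanSpace_fin,
      ENNReal.ofReal_mul ENNReal.toReal_nonneg, ENNReal.ofReal_toReal hct.ne, mul_comm]
  rw [← hball]
  have hbox := Pool.Agent.H803R2.KakFTO.lintegral_box (d := d) (g := fun _ => 1) measurable_const
    (fun t => b + t • v) (by fun_prop) A hA (δ / 4)
  have hbox' : volume {p : (Vec d) × ℝ | p.2 ∈ A ∧ ‖p.1 - (b + p.2 • v)‖ ≤ δ / 4} =
      volume (closedBall (0 : Vec d) (δ / 4)) * volume A := by
    rw [setLIntegral_one] at hbox
    rw [hbox]
    simp only [lintegral_const, Measure.restrict_apply_univ, one_mul]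
  rw [← hbox']
  refine measure_mono ?_
  rintro ⟨z, t⟩ ⟨ht, hz⟩
  refine ⟨?_, ?_⟩
  · exact Pool.Agent.H803R2.KakFTO.subset_tube hδ hδ1 (fun _ => b) hv s (hAs ht) hz
  · refine hX t ht ?_
    rw [mem_closedBall, WithLp.prod_dist_eq_of_L2]
    have h1 : dist z (b + t • v) ≤ δ / 4 := by rw [dist_eq_norm]; exact hz
    have h2 : √(dist z (b + t • v) ^ 2 + dist t t ^ 2) ≤ δ := by
      rw [dist_self]
      have h3 : dist z (b + t • v) ^ 2 + 0 ^ 2 = dist z (b + t • v) ^ 2 := by ring
      rw [h3, Real.sqrt_sq dist_nonneg]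
      linarith
    exact h2

end Pool.Agent.N482.HK
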